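import Pool.Agent.helper74.MQ.Spec

/-!
# mq:COC: algebra of the transport derivatives
-/

set_option autoImplicit false

open Complex Metric Set Filter Topology MeasureTheory MPS

noncomputable section

namespace MQ

theorem COC_fd {n : ℕ} (hn : 2 ≤ n) {z : ℂ} (hz : z ≠ 0) : fd n z ≠ 0 := by
  unfold fd
  refine mul_ne_zero ?_ (pow_ne_zero _ hz)
  exact_mod_cast (by omega : n ≠ 0)

theorem COC_prod {k : ℕ} [NeZero k] (f : ZMod k → ℂ) (i : ZMod k) :
    ∏ j ∈ Finset.Icc 1 k, f (i - (j : ZMod k)) = ∏ x, f x := by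
  have hk : 0 < k := Nat.pos_of_ne_zero (NeZero.ne k)
  refine Finset.prod_nbij (fun j : ℕ => i - (j : ZMod k)) (fun _ _ => Finset.mem_univ _) ?_ ?_
    (fun _ _ => rfl)
  · intro j hj j' hj' h
    have hj := Finset.mem_Icc.1 (Finset.mem_coe.1 hj)
    have hj' := Finset.mem_Icc.1 (Finset.mem_coe.1 hj')
    have h1 : ((j : ℕ) : ZMod k) = ((j' : ℕ) : ZMod k) := sub_right_injective h
    have h2 := (ZMod.natCast_eq_natCast_iff j j' k).1 h1
    have h3 : (j - 1) ≡ (j' - 1) [MOD k] := by
      have e1 : j = (j - 1) + 1 := by omega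
      have e2 : j' = (j' - 1) + 1 := by omega
      rw [e1, e2] at h2
      exact Nat.ModEq.add_right_cancel' 1 h2
    have h4 := Nat.ModEq.eq_of_lt_of_lt h3 (by omega) (by omega)
    omega
  · intro x _
    by_cases hx : i - x = 0
    · refine ⟨k, Finset.mem_coe.2 (Finset.mem_Icc.2 ⟨hk, le_rfl⟩), ?_⟩
      simp only [ZMod.natCast_self, sub_zero]
      exact sub_eq_zero.1 hx
    · refine ⟨(i - x).val, Finset.mem_coe.2 (Finset.mem_Icc.2 ⟨?_, (ZMod.val_lt _).le⟩), ?_⟩
      · have : (i - x).val ≠ 0 := fun h => hx ((ZMod.val_eq_zero _).1 h)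
        omega
      · simp only [ZMod.natCast_val, ZMod.cast_id', id_eq, sub_sub_cancel]

theorem COC : COC_stmt := by
  intro n k _ b ψ hn hb hd i
  have hf : ∀ j, fd n (b j) ≠ 0 := fun j => COC_fd hn (hb j)
  have hP : ∀ (i : ZMod k) (q : ℕ), ∏ j ∈ Finset.Icc 1 q, fd n (b (i - (j : ZMod k))) ≠ 0 :=
    fun i q => Finset.prod_ne_zero_iff.2 fun j _ => hf _
  refine ⟨fun q => ?_, ?_, ?_, fun q q' => ?_⟩
  · unfold Kq
    exact div_ne_zero (hd i) (mul_ne_zero (hd _) (hP i q))
  · unfold Kq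
    simp only [Nat.cast_zero, sub_zero]
    rw [Finset.Icc_eq_empty (by norm_num), Finset.prod_empty, mul_one]
    exact div_self (hd i)
  · unfold Kq rho
    rw [COC_prod (fun x => fd n (b x)) i]
    simp only [ZMod.natCast_self, sub_zero]
    have h1 : ∏ x, fd n (b x) ≠ 0 := Finset.prod_ne_zero_iff.2 fun j _ => hf _
    have h2 := hd i
    field_simp
  · have hprod : ∏ j ∈ Finset.Icc 1 (q + q'), fd n (b (i - (j : ZMod k))) =
        (∏ j ∈ Finset.Icc 1 q, fd n (b (i - (j : ZMod k)))) *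
        ∏ j ∈ Finset.Icc 1 q', fd n (b (i - (q : ZMod k) - (j : ZMod k))) := by
      induction q' with
      | zero => simp
      | succ m ih =>
        rw [← Nat.add_assoc, Finset.prod_Icc_succ_top (by omega), ih,
          Finset.prod_Icc_succ_top (by omega), mul_assoc]
        have e : i - ((q + m + 1 : ℕ) : ZMod k) = i - (q : ZMod k) - ((m + 1 : ℕ) : ZMod k) := by
          push_cast
          ring
        rw [e]
    unfold Kq
    rw [hprod]
    have e2 : i - ((q + q' : ℕ) : ZMod k) = i - (q : ZMod k) - (q' : ZMod k) := by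
      push_cast
      ring
    rw [e2]
    have h1 := hd i
    have h2 := hd (i - (q : ZMod k))
    have h3 := hd (i - (q : ZMod k) - (q' : ZMod k))
    have h4 := hP i q
    have h5 := hP (i - (q : ZMod k)) q'
    field_simp

end MQ
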